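import Pool.Agent.AlefA.Tab

/-!
# Exact covers by the 14-omino: the local rules
-/

set_option autoImplicit false

namespace AlefA.H0

theorem k_r1 : chkL [(0, (0, 0))] [(0, (3, -1)), (0, (1, 3))]
    [2145, 1760, 1631, 1951, 2079, 2078, 2014, 2079, 2078, 1951, 1821, 2079, 2078, 2014,
      1886, 2081, 1824, 2082, 1954, 1955, 2211, 1954, 1955, 2019, 2020, 1891, 2021, 2149,
      2212, 2214, 2277, 2275, 2275, 2405, 2337, 2340, 2468, 2212, 2213, 2081, 2082, 2017,
      1824, 2338, 2337, 2402, 2595, 1958, 1956, 1956, 1826] = true := by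
  decide +kernel

theorem k_b1 : chkL [(0, (0, 0)), (0, (3, -1))] [(0, (-3, 1))]
    [1951, 1822, 2142, 2145, 2081, 2338, 2270, 2269, 2142, 2012, 2145, 2081, 1824, 2270,
      2204, 2203, 2337, 2528, 2659, 2531, 2531, 2595, 2401, 2401, 2333, 2269, 2205, 2338,
      2077] = true := by
  decide +kernel

theorem k_b2 : chkL [(0, (0, 0)), (0, (3, -1))] [(0, (6, -2))]
    [1951, 1822, 2142, 2270, 2205, 2205, 2270, 2269, 2142, 2012, 2270, 2269, 2205, 2077] = true := by
  decide +kernel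

theorem k_bp : chkL [(0, (0, 0)), (0, (3, -1))] [(0, (5, 3))]
    [1951, 1822, 2142, 2145, 2146, 2210, 2210, 2081, 2338, 2270, 2269, 2142, 2012, 2270,
      2204, 2203, 2337, 2528, 2659, 2595, 2595, 2531, 2145, 2401, 2401, 2333, 2269, 2205,
      2077] = true := by
  decide +kernel

theorem k_bm1 : chkL [(0, (0, 0)), (0, (3, -1))] [(0, (-5, -3)), (3, (-3, -7))]
    [1951, 2142, 2012, 2270, 2204, 2203, 2337, 2528, 2461, 2719, 2395, 2394, 1884, 1820,
      1821, 1821, 1821, 1756, 1824, 1763, 2145, 2081, 2338, 2394, 2460, 2396, 2401, 2401,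
      2333, 2269, 2205, 2077] = true := by
  decide +kernel

theorem k_bm2 : chkL [(0, (0, 0)), (0, (3, -1))] [(0, (-5, -3)), (3, (0, -8))]
    [1951, 2142, 2012, 2077] = true := by
  decide +kernel

theorem k_m1 : chkL [(0, (0, 0)), (0, (1, 3))] [(0, (-1, -3))]
    [2081, 2338, 2337, 2337, 2207, 2079, 2143, 2271] = true := by
  decide +kernel

theorem k_m2 : chkL [(0, (0, 0)), (0, (1, 3))] [(0, (2, 6))]
    [2081, 2338, 2337, 2337, 2334, 2270, 2207, 2207, 2079, 1695, 1696, 1826, 1828, 1762,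
      2149, 2021, 2278, 2021, 1957, 1696, 2079] = true := by
  decide +kernel

theorem k_m3 : chkL [(0, (0, 0)), (0, (1, 3))] [(2, (-3, -2))]
    [2081, 1951, 1822, 2079, 2338, 2078, 2014, 2079, 2078] = true := by
  decide +kernel

theorem k_m4 : chkL [(0, (0, 0)), (0, (1, 3))] [(1, (-7, 3))]
    [2081, 2338, 2337, 2337, 2334, 2270, 2207, 2207, 2079, 1695, 1696, 1696, 2079] = true := by
  decide +kernel

theorem k_m5 : chkL [(0, (0, 0)), (0, (1, 3))] [(3, (6, 1))]
    [2081, 2338, 2337, 2337, 2461, 2462, 2462, 2463, 2402] = true := by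
  decide +kernel

end AlefA.H0
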