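import Mathlib

/-!
# A verified refutation checker for exact covers

Occupied cells are stored as the bits of a natural number.
-/

set_option autoImplicit false

namespace AlefA.H0

/-- bit mask of a list of positions -/
def bits : List ℕ → ℕ
  | [] => 0
  | i :: l => (1 <<< i) ||| bits l

theorem testBit_bits (l : List ℕ) (i : ℕ) : (bits l).testBit i = true ↔ i ∈ l := by
  induction l with
  | nil => simp [bits]
  | cons a l ih =>
    rw [bits, Nat.testBit_or, Nat.one_shiftLeft, Nat.testBit_two_pow, Bool.or_eq_true, ih,
      List.mem_cons, decide_eq_true_iff]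
    constructor
    · rintro (h | h)
      · exact Or.inl h.symm
      · exact Or.inr h
    · rintro (h | h)
      · exact Or.inl h.symm
      · exact Or.inr h

theorem bits_shift (l : List ℕ) (c : ℕ) : bits l <<< c = bits (l.map (· + c)) := by
  apply Nat.eq_of_testBit_eq
  intro i
  rw [Bool.eq_iff_iff, Nat.testBit_shiftLeft, Bool.and_eq_true, testBit_bits, testBit_bits,
    decide_eq_true_iff, List.mem_map]
  constructor
  · rintro ⟨h1, h2⟩
    exact ⟨i - c, h2, by omega⟩
  · rintro ⟨a, ha, rfl⟩
    exact ⟨by omega, by rwa [Nat.add_sub_cancel]⟩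

/-- membership test -/
def memb (a : ℕ) : List ℕ → Bool
  | [] => false
  | b :: l => Nat.beq a b || memb a l

theorem memb_iff (a : ℕ) (l : List ℕ) : memb a l = true ↔ a ∈ l := by
  induction l with
  | nil => simp [memb]
  | cons b l ih =>
    rw [memb, Bool.or_eq_true, Nat.beq_eq, ih, List.mem_cons]

/-- the possible successors of a partial cover -/
def kids (forb : List ℕ) (occ : ℕ) : List (ℕ × ℕ) → List ℕ
  | [] => []
  | t :: l => cond (Nat.beq (occ &&& t.1) 0 && !(memb t.2 forb)) ((occ ||| t.1) :: kids forb occ l)
      (kids forb occ l)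

theorem mem_kids (forb : List ℕ) (occ : ℕ) (l : List (ℕ × ℕ)) (t : ℕ × ℕ) (ht : t ∈ l)
    (h0 : occ &&& t.1 = 0) (hf : t.2 ∉ forb) : (occ ||| t.1) ∈ kids forb occ l := by
  induction l with
  | nil => exact absurd ht List.not_mem_nil
  | cons s l ih =>
    rw [kids]
    rcases List.mem_cons.mp ht with rfl | ht
    · have h1 : (Nat.beq (occ &&& t.1) 0 && !(memb t.2 forb)) = true := by
        rw [Bool.and_eq_true, Nat.beq_eq, h0]
        refine ⟨rfl, ?_⟩
        rw [Bool.not_eq_true', Bool.eq_false_iff]
        intro h
        exact hf ((memb_iff _ _).mp h)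
      rw [h1]
      exact List.mem_cons_self
    · have := ih ht
      cases (Nat.beq (occ &&& s.1) 0 && !(memb s.2 forb)) with
      | true => exact List.mem_cons_of_mem _ this
      | false => exact this

/-- the checker: a certificate is the list of the cells on which one branches -/
def run (kt : ℕ → List (ℕ × ℕ)) (off : ℕ) (forb : List ℕ) : List ℕ → List ℕ → Bool
  | _, [] => true
  | [], _ :: _ => false
  | c :: cs, occ :: st =>
    !(Nat.testBit occ (c + off)) && run kt off forb cs (kids forb occ (kt c) ++ st)

/-- union of masks -/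
def uni : List ℕ → ℕ
  | [] => 0
  | m :: l => m ||| uni l

theorem testBit_uni (L : List ℕ) (i : ℕ) :
    (uni L).testBit i = true ↔ ∃ m ∈ L, m.testBit i = true := by
  induction L with
  | nil => simp [uni]
  | cons a L ih =>
    rw [uni, Nat.testBit_or, Bool.or_eq_true, ih]
    simp

theorem exists_bit {a b : ℕ} (h : a &&& b ≠ 0) :
    ∃ i, a.testBit i = true ∧ b.testBit i = true := by
  obtain ⟨i, hi⟩ := Nat.exists_testBit_of_ne_zero h
  rw [Nat.testBit_and, Bool.and_eq_true] at hi
  exact ⟨i, hi⟩

theorem land_ne_zero {a b i : ℕ} (h1 : a.testBit i = true) (h2 : b.testBit i = true) :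
    a &&& b ≠ 0 := by
  intro h
  have : (a &&& b).testBit i = true := by rw [Nat.testBit_and, h1, h2]; rfl
  rw [h, Nat.zero_testBit] at this
  exact Bool.noConfusion this

theorem run_sound (kt : ℕ → List (ℕ × ℕ)) (off : ℕ) (forb : List ℕ) (Tr : Set ℕ) (valid : ℕ → Prop)
    (H1 : ∀ c, valid c → ∃ t ∈ kt c, t.1 ∈ Tr ∧ t.2 ∉ forb ∧ t.1.testBit (c + off) = true)
    (H2 : ∀ m ∈ Tr, ∀ m' ∈ Tr, m &&& m' ≠ 0 → m = m') :
    ∀ (cert st : List ℕ), (∀ c ∈ cert, valid c) → run kt off forb cert st = true →
      ∀ occ ∈ st, ∀ L : List ℕ, (∀ m ∈ L, m ∈ Tr) → occ ≠ uni L := by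
  intro cert
  induction cert with
  | nil =>
    intro st _ h occ hocc
    cases st with
    | nil => exact absurd hocc List.not_mem_nil
    | cons a st => rw [run] at h; exact Bool.noConfusion h
  | cons c cs ih =>
    intro st hv h occ hocc
    cases st with
    | nil => exact absurd hocc List.not_mem_nil
    | cons a st =>
      rw [run, Bool.and_eq_true] at h
      obtain ⟨hb, hr⟩ := h
      have IH := ih _ (fun c' hc' => hv c' (List.mem_cons_of_mem _ hc')) hr
      rcases List.mem_cons.mp hocc with rfl | hocc
      · intro L hL hoL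
        obtain ⟨t, ht, htT, htf, htb⟩ := H1 c (hv c List.mem_cons_self)
        by_cases h0 : occ &&& t.1 = 0
        · refine IH _ (List.mem_append_left _ (mem_kids forb occ _ t ht h0 htf)) (t.1 :: L) ?_ ?_
          · intro m hm
            rcases List.mem_cons.mp hm with rfl | hm
            · exact htT
            · exact hL m hm
          · rw [uni, ← hoL, Nat.lor_comm]
        · obtain ⟨i, hi1, hi2⟩ := exists_bit h0
          rw [hoL, testBit_uni] at hi1
          obtain ⟨m, hm, hmi⟩ := hi1
          have : m = t.1 := H2 m (hL m hm) t.1 htT (land_ne_zero hmi hi2)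
          have h2 : occ.testBit (c + off) = true := by
            rw [hoL, testBit_uni]
            exact ⟨m, hm, by rw [this]; exact htb⟩
          rw [h2] at hb
          exact Bool.noConfusion hb
      · exact IH occ (List.mem_append_right _ hocc)

end AlefA.H0
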