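import Pool.Agent.AlefA.Certs

/-!
# Classification of the exact covers by the 14-omino
-/

set_option autoImplicit false

namespace AlefA.H0

/-- the cover seen from a placement -/
def seen (P : Set Pl) (q : Pl) : Set Pl := {r | act q.1 q.2 r ∈ P}

theorem seen_tiling {P : Set Pl} (hP : Tiling P) (q : Pl) : Tiling (seen P q) := hP.pre q.1 q.2

theorem act_zero (q : Pl) : act q.1 q.2 ((0 : Fin 4), ((0 : ℤ), (0 : ℤ))) = q := by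
  have h0 : ∀ k : ℕ, rt^[k] ((0 : ℤ), (0 : ℤ)) = (0, 0) := by
    intro k
    induction k with
    | zero => rfl
    | succ k ih => rw [Function.iterate_succ_apply', ih]; rfl
  have h1 : act q.1 q.2 ((0 : Fin 4), ((0 : ℤ), (0 : ℤ))) =
      ((0 : Fin 4) + q.1, rt^[q.1.val] ((0 : ℤ), (0 : ℤ)) + q.2) := rfl
  rw [h1, h0, zero_add]
  ext
  · rfl
  · simp
  · simp

theorem zero_seen {P : Set Pl} {q : Pl} (hq : q ∈ P) :
    ((0 : Fin 4), ((0 : ℤ), (0 : ℤ))) ∈ seen P q := by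
  show act q.1 q.2 _ ∈ P
  rw [act_zero]
  exact hq

/-! Local rules at the origin -/

private theorem rule {L FP : List Pl} {cert : List ℕ} (h : chkL L FP cert = true) {P : Set Pl}
    (hP : Tiling P) (hL : ∀ q ∈ L, q ∈ P) : ∃ q ∈ FP, q ∈ P := by
  by_contra hc
  exact refuteL h hP hL fun q hq hqP => hc ⟨q, hq, hqP⟩

theorem R1 {P : Set Pl} (hP : Tiling P) (h0 : ((0 : Fin 4), ((0 : ℤ), (0 : ℤ))) ∈ P) :
    ((0 : Fin 4), ((3 : ℤ), (-1 : ℤ))) ∈ P ∨ ((0 : Fin 4), ((1 : ℤ), (3 : ℤ))) ∈ P := by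
  have := rule k_r1 hP (by simpa using h0)
  simpa using this

section
variable {P : Set Pl} (hP : Tiling P) (h0 : ((0 : Fin 4), ((0 : ℤ), (0 : ℤ))) ∈ P)

include hP h0

theorem RB1 (h1 : ((0 : Fin 4), ((3 : ℤ), (-1 : ℤ))) ∈ P) :
    ((0 : Fin 4), ((-3 : ℤ), (1 : ℤ))) ∈ P := by
  have := rule k_b1 hP (by simpa using ⟨h0, h1⟩)
  simpa using this

theorem RB2 (h1 : ((0 : Fin 4), ((3 : ℤ), (-1 : ℤ))) ∈ P) :
    ((0 : Fin 4), ((6 : ℤ), (-2 : ℤ))) ∈ P := by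
  have := rule k_b2 hP (by simpa using ⟨h0, h1⟩)
  simpa using this

theorem RBp (h1 : ((0 : Fin 4), ((3 : ℤ), (-1 : ℤ))) ∈ P) :
    ((0 : Fin 4), ((5 : ℤ), (3 : ℤ))) ∈ P := by
  have := rule k_bp hP (by simpa using ⟨h0, h1⟩)
  simpa using this

theorem RBm (h1 : ((0 : Fin 4), ((3 : ℤ), (-1 : ℤ))) ∈ P)
    (h2 : ((0 : Fin 4), ((-5 : ℤ), (-3 : ℤ))) ∉ P) :
    ((3 : Fin 4), ((-3 : ℤ), (-7 : ℤ))) ∈ P ∧ ((3 : Fin 4), ((0 : ℤ), (-8 : ℤ))) ∈ P := by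
  have a := rule k_bm1 hP (by simpa using ⟨h0, h1⟩)
  have b := rule k_bm2 hP (by simpa using ⟨h0, h1⟩)
  simp only [List.mem_cons, List.not_mem_nil, or_false, exists_eq_or_imp, exists_eq_left] at a b
  exact ⟨a.resolve_left h2, b.resolve_left h2⟩

theorem RM1 (h1 : ((0 : Fin 4), ((1 : ℤ), (3 : ℤ))) ∈ P) :
    ((0 : Fin 4), ((-1 : ℤ), (-3 : ℤ))) ∈ P := by
  have := rule k_m1 hP (by simpa using ⟨h0, h1⟩)
  simpa using this

theorem RM2 (h1 : ((0 : Fin 4), ((1 : ℤ), (3 : ℤ))) ∈ P) :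
    ((0 : Fin 4), ((2 : ℤ), (6 : ℤ))) ∈ P := by
  have := rule k_m2 hP (by simpa using ⟨h0, h1⟩)
  simpa using this

theorem RM3 (h1 : ((0 : Fin 4), ((1 : ℤ), (3 : ℤ))) ∈ P) :
    ((2 : Fin 4), ((-3 : ℤ), (-2 : ℤ))) ∈ P := by
  have := rule k_m3 hP (by simpa using ⟨h0, h1⟩)
  simpa using this

theorem RM4 (h1 : ((0 : Fin 4), ((1 : ℤ), (3 : ℤ))) ∈ P) :
    ((1 : Fin 4), ((-7 : ℤ), (3 : ℤ))) ∈ P := by
  have := rule k_m4 hP (by simpa using ⟨h0, h1⟩)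
  simpa using this

theorem RM5 (h1 : ((0 : Fin 4), ((1 : ℤ), (3 : ℤ))) ∈ P) :
    ((3 : Fin 4), ((6 : ℤ), (1 : ℤ))) ∈ P := by
  have := rule k_m5 hP (by simpa using ⟨h0, h1⟩)
  simpa using this

end

/-! Placements in explicit form -/

theorem act0 (x y a b : ℤ) (g : Fin 4) : act 0 (x, y) (g, (a, b)) = (g, (a + x, b + y)) := by
  simp [act]

theorem act1 (x y a b : ℤ) (g : Fin 4) : act 1 (x, y) (g, (a, b)) = (g + 1, (-b + x, a + y)) := by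
  simp [act, rt]

theorem act3 (x y a b : ℤ) (g : Fin 4) : act 3 (x, y) (g, (a, b)) = (g + 3, (b + x, -a + y)) := by
  have h : rt^[(3 : Fin 4).val] (a, b) = (b, -a) := by
    show rt (rt (rt (a, b))) = _
    simp [rt]
  show ((g + 3 : Fin 4), rt^[(3 : Fin 4).val] (a, b) + (x, y)) = _
  rw [h]
  rfl

theorem pl_eq {g : Fin 4} {x y x' y' : ℤ} (h1 : x = x') (h2 : y = y') :
    (g, (x, y)) = (g, (x', y')) := by rw [h1, h2]

/-- the row of an image of type 0 of the second kind -/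
theorem rowM {P : Set Pl} (hP : Tiling P) (h0 : ((0 : Fin 4), ((0 : ℤ), (0 : ℤ))) ∈ P)
    (h1 : ((0 : Fin 4), ((1 : ℤ), (3 : ℤ))) ∈ P) (n : ℤ) :
    ((0 : Fin 4), (n, 3 * n)) ∈ P ∧ ((0 : Fin 4), (n + 1, 3 * n + 3)) ∈ P := by
  induction n using Int.induction_on with
  | zero => exact ⟨h0, h1⟩
  | succ n ih =>
    obtain ⟨a, b⟩ := ih
    have e1 : ((0 : Fin 4), ((n : ℤ) + 1, 3 * ((n : ℤ) + 1))) = (0, ((n : ℤ) + 1, 3 * (n : ℤ) + 3)) :=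
      pl_eq rfl (by ring)
    refine ⟨by rw [e1]; exact b, ?_⟩
    have h2 : ((0 : Fin 4), ((1 : ℤ), (3 : ℤ))) ∈ seen P (0, ((n : ℤ), 3 * (n : ℤ))) := by
      show act 0 ((n : ℤ), 3 * (n : ℤ)) (0, (1, 3)) ∈ P
      rw [act0, pl_eq (show (1 : ℤ) + n = n + 1 by ring) (show (3 : ℤ) + 3 * n = 3 * n + 3 by ring)]
      exact b
    have h3 := RM2 (seen_tiling hP _) (zero_seen a) h2
    have h4 : act 0 ((n : ℤ), 3 * (n : ℤ)) (0, (2, 6)) ∈ P := h3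
    rw [act0] at h4
    rw [pl_eq (show (n : ℤ) + 1 + 1 = 2 + n by ring) (show 3 * ((n : ℤ) + 1) + 3 = 6 + 3 * n by ring)]
    exact h4
  | pred n ih =>
    obtain ⟨a, b⟩ := ih
    have h2 : ((0 : Fin 4), ((1 : ℤ), (3 : ℤ))) ∈ seen P (0, (-(n : ℤ), 3 * -(n : ℤ))) := by
      show act 0 (-(n : ℤ), 3 * -(n : ℤ)) (0, (1, 3)) ∈ P
      rw [act0, pl_eq (show (1 : ℤ) + -n = -n + 1 by ring)
        (show (3 : ℤ) + 3 * -n = 3 * -n + 3 by ring)]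
      exact b
    have h3 := RM1 (seen_tiling hP _) (zero_seen a) h2
    have h4 : act 0 (-(n : ℤ), 3 * -(n : ℤ)) (0, (-1, -3)) ∈ P := h3
    rw [act0] at h4
    constructor
    · rw [pl_eq (show -(n : ℤ) - 1 = -1 + -n by ring) (show 3 * (-(n : ℤ) - 1) = -3 + 3 * -n by ring)]
      exact h4
    · rw [pl_eq (show -(n : ℤ) - 1 + 1 = -n by ring)
        (show 3 * (-(n : ℤ) - 1) + 3 = 3 * -n by ring)]
      exact a

theorem rowM2 {P : Set Pl} (hP : Tiling P) (h0 : ((0 : Fin 4), ((0 : ℤ), (0 : ℤ))) ∈ P)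
    (h1 : ((0 : Fin 4), ((1 : ℤ), (3 : ℤ))) ∈ P) (n : ℤ) :
    ((2 : Fin 4), (n - 3, 3 * n - 2)) ∈ P ∧ ((1 : Fin 4), (n - 7, 3 * n + 3)) ∈ P ∧
      ((3 : Fin 4), (n + 6, 3 * n + 1)) ∈ P := by
  obtain ⟨a, b⟩ := rowM hP h0 h1 n
  have h2 : ((0 : Fin 4), ((1 : ℤ), (3 : ℤ))) ∈ seen P (0, (n, 3 * n)) := by
    show act 0 (n, 3 * n) (0, (1, 3)) ∈ P
    rw [act0, pl_eq (show (1 : ℤ) + n = n + 1 by ring) (show (3 : ℤ) + 3 * n = 3 * n + 3 by ring)]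
    exact b
  have c1 : act 0 (n, 3 * n) (2, (-3, -2)) ∈ P := RM3 (seen_tiling hP _) (zero_seen a) h2
  have c2 : act 0 (n, 3 * n) (1, (-7, 3)) ∈ P := RM4 (seen_tiling hP _) (zero_seen a) h2
  have c3 : act 0 (n, 3 * n) (3, (6, 1)) ∈ P := RM5 (seen_tiling hP _) (zero_seen a) h2
  rw [act0] at c1 c2 c3
  refine ⟨?_, ?_, ?_⟩
  · rw [pl_eq (show n - 3 = -3 + n by ring) (show 3 * n - 2 = -2 + 3 * n by ring)]
    exact c1
  · rw [pl_eq (show n - 7 = -7 + n by ring) (show 3 * n + 3 = 3 + 3 * n by ring)]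
    exact c2
  · rw [pl_eq (show n + 6 = 6 + n by ring) (show 3 * n + 1 = 1 + 3 * n by ring)]
    exact c3

theorem rows1 {P : Set Pl} (hP : Tiling P) (h0 : ((0 : Fin 4), ((0 : ℤ), (0 : ℤ))) ∈ P)
    (h1 : ((0 : Fin 4), ((1 : ℤ), (3 : ℤ))) ∈ P) (m : ℕ) : ∀ n : ℤ,
    ((1 : Fin 4), (n - 7 - 3 * (m : ℤ), 3 * n + 3 + 5 * (m : ℤ))) ∈ P := by
  induction m with
  | zero =>
    intro n
    have := (rowM2 hP h0 h1 n).2.1
    simpa using this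
  | succ m ih =>
    intro n
    have a := ih n
    have b := ih (n + 1)
    have h2 : ((0 : Fin 4), ((3 : ℤ), (-1 : ℤ))) ∈
        seen P (1, (n - 7 - 3 * (m : ℤ), 3 * n + 3 + 5 * (m : ℤ))) := by
      show act 1 (n - 7 - 3 * (m : ℤ), 3 * n + 3 + 5 * (m : ℤ)) (0, (3, -1)) ∈ P
      rw [act1, pl_eq (show -(-1 : ℤ) + (n - 7 - 3 * (m : ℤ)) = n + 1 - 7 - 3 * (m : ℤ) by ring)
        (show (3 : ℤ) + (3 * n + 3 + 5 * (m : ℤ)) = 3 * (n + 1) + 3 + 5 * (m : ℤ) by ring)]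
      exact b
    have h3 : act 1 (n - 7 - 3 * (m : ℤ), 3 * n + 3 + 5 * (m : ℤ)) (0, (5, 3)) ∈ P :=
      RBp (seen_tiling hP _) (zero_seen a) h2
    rw [act1] at h3
    push_cast
    rw [pl_eq (show n - 7 - 3 * ((m : ℤ) + 1) = -3 + (n - 7 - 3 * (m : ℤ)) by ring)
      (show 3 * n + 3 + 5 * ((m : ℤ) + 1) = 5 + (3 * n + 3 + 5 * (m : ℤ)) by ring)]
    exact h3

theorem rows3 {P : Set Pl} (hP : Tiling P) (h0 : ((0 : Fin 4), ((0 : ℤ), (0 : ℤ))) ∈ P)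
    (h1 : ((0 : Fin 4), ((1 : ℤ), (3 : ℤ))) ∈ P) (m : ℕ) : ∀ n : ℤ,
    ((3 : Fin 4), (n + 6 + 3 * (m : ℤ), 3 * n + 1 - 5 * (m : ℤ))) ∈ P := by
  induction m with
  | zero =>
    intro n
    have := (rowM2 hP h0 h1 n).2.2
    simpa using this
  | succ m ih =>
    intro n
    have a := ih n
    have b := ih (n - 1)
    have h2 : ((0 : Fin 4), ((3 : ℤ), (-1 : ℤ))) ∈
        seen P (3, (n + 6 + 3 * (m : ℤ), 3 * n + 1 - 5 * (m : ℤ))) := by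
      show act 3 (n + 6 + 3 * (m : ℤ), 3 * n + 1 - 5 * (m : ℤ)) (0, (3, -1)) ∈ P
      rw [act3, pl_eq (show (-1 : ℤ) + (n + 6 + 3 * (m : ℤ)) = n - 1 + 6 + 3 * (m : ℤ) by ring)
        (show -(3 : ℤ) + (3 * n + 1 - 5 * (m : ℤ)) = 3 * (n - 1) + 1 - 5 * (m : ℤ) by ring)]
      exact b
    have h3 : act 3 (n + 6 + 3 * (m : ℤ), 3 * n + 1 - 5 * (m : ℤ)) (0, (5, 3)) ∈ P :=
      RBp (seen_tiling hP _) (zero_seen a) h2
    rw [act3] at h3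
    push_cast
    rw [pl_eq (show n + 6 + 3 * ((m : ℤ) + 1) = 3 + (n + 6 + 3 * (m : ℤ)) by ring)
      (show 3 * n + 1 - 5 * ((m : ℤ) + 1) = -5 + (3 * n + 1 - 5 * (m : ℤ)) by ring)]
    exact h3

/-- a placement of a cover which contains a cover is in the smaller one -/
theorem eq_of_sub {P P' : Set Pl} (hP : Tiling P) (hP' : Tiling P') (h : P' ⊆ P) : P = P' := by
  have hz : ∀ g : Fin 4, ((0 : ℤ), (0 : ℤ)) ∈ Fg g := by decide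
  refine Set.Subset.antisymm (fun q hq => ?_) h
  obtain ⟨r, ⟨hr, hrc⟩, _⟩ := hP' q.2
  have h1 : q.2 - q.2 ∈ Fg q.1 := by rw [sub_self]; exact hz q.1
  obtain ⟨s, _, hu⟩ := hP q.2
  have h2 := hu q ⟨hq, h1⟩
  have h3 := hu r ⟨h hr, hrc⟩
  rw [h2, ← h3]
  exact hr

end AlefA.H0
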