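import Pool.Agent.AlefA.Two

/-!
# The 14-omino has countably many exact covers
-/

set_option autoImplicit false

namespace AlefA.H0

/-- without placements of the second kind a cover is closed under the lattice -/
theorem lat_step {P : Set Pl} (hP : Tiling P)
    (hno : ∀ q ∈ P, act q.1 q.2 ((0 : Fin 4), ((1 : ℤ), (3 : ℤ))) ∉ P) {x y : ℤ}
    (h : ((0 : Fin 4), (x, y)) ∈ P) :
    (((0 : Fin 4), (x + 3, y - 1)) ∈ P ∧ ((0 : Fin 4), (x - 3, y + 1)) ∈ P) ∧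
      ((0 : Fin 4), (x + 5, y + 3)) ∈ P ∧ ((0 : Fin 4), (x - 5, y - 3)) ∈ P := by
  have hQ := seen_tiling hP (0, (x, y))
  have h0 := zero_seen h
  have h1 : ((0 : Fin 4), ((3 : ℤ), (-1 : ℤ))) ∈ seen P (0, (x, y)) := by
    rcases R1 hQ h0 with h1 | h1
    · exact h1
    · exact absurd h1 (hno _ h)
  have a1 : act 0 (x, y) (0, (3, -1)) ∈ P := h1
  have a2 : act 0 (x, y) (0, (-3, 1)) ∈ P := RB1 hQ h0 h1
  have a3 : act 0 (x, y) (0, (5, 3)) ∈ P := RBp hQ h0 h1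
  have a4 : act 0 (x, y) (0, (-5, -3)) ∈ P := by
    by_contra hc
    obtain ⟨b1, b2⟩ := RBm hQ h0 h1 hc
    have c1 : act 0 (x, y) (3, (-3, -7)) ∈ P := b1
    have c2 : act 0 (x, y) (3, (0, -8)) ∈ P := b2
    rw [act0] at c1 c2
    apply hno _ c1
    show act 3 (-3 + x, -7 + y) (0, (1, 3)) ∈ P
    rw [act3]
    rw [pl_eq (show (3 : ℤ) + (-3 + x) = 0 + x by ring) (show (-1 : ℤ) + (-7 + y) = -8 + y by ring)]
    exact c2
  rw [act0] at a1 a2 a3 a4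
  refine ⟨⟨?_, ?_⟩, ?_, ?_⟩
  · rw [pl_eq (show x + 3 = 3 + x by ring) (show y - 1 = -1 + y by ring)]
    exact a1
  · rw [pl_eq (show x - 3 = -3 + x by ring) (show y + 1 = 1 + y by ring)]
    exact a2
  · rw [pl_eq (show x + 5 = 5 + x by ring) (show y + 3 = 3 + y by ring)]
    exact a3
  · rw [pl_eq (show x - 5 = -5 + x by ring) (show y - 3 = -3 + y by ring)]
    exact a4

theorem lat_row {P : Set Pl} (hP : Tiling P)
    (hno : ∀ q ∈ P, act q.1 q.2 ((0 : Fin 4), ((1 : ℤ), (3 : ℤ))) ∉ P)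
    (h0 : ((0 : Fin 4), ((0 : ℤ), (0 : ℤ))) ∈ P) (a : ℤ) :
    ((0 : Fin 4), (3 * a, -a)) ∈ P := by
  induction a using Int.induction_on with
  | zero => simpa using h0
  | succ n ih =>
    have := (lat_step hP hno ih).1.1
    rw [pl_eq (show 3 * ((n : ℤ) + 1) = 3 * (n : ℤ) + 3 by ring)
      (show -((n : ℤ) + 1) = -(n : ℤ) - 1 by ring)]
    exact this
  | pred n ih =>
    have := (lat_step hP hno ih).1.2
    rw [pl_eq (show 3 * (-(n : ℤ) - 1) = 3 * -(n : ℤ) - 3 by ring)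
      (show -(-(n : ℤ) - 1) = - -(n : ℤ) + 1 by ring)]
    exact this

theorem lat_all {P : Set Pl} (hP : Tiling P)
    (hno : ∀ q ∈ P, act q.1 q.2 ((0 : Fin 4), ((1 : ℤ), (3 : ℤ))) ∉ P)
    (h0 : ((0 : Fin 4), ((0 : ℤ), (0 : ℤ))) ∈ P) (a b : ℤ) :
    ((0 : Fin 4), (3 * a + 5 * b, -a + 3 * b)) ∈ P := by
  induction b using Int.induction_on with
  | zero => simpa using lat_row hP hno h0 a
  | succ n ih =>
    have := (lat_step hP hno ih).2.1
    rw [pl_eq (show 3 * a + 5 * ((n : ℤ) + 1) = 3 * a + 5 * (n : ℤ) + 5 by ring)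
      (show -a + 3 * ((n : ℤ) + 1) = -a + 3 * (n : ℤ) + 3 by ring)]
    exact this
  | pred n ih =>
    have := (lat_step hP hno ih).2.2
    rw [pl_eq (show 3 * a + 5 * (-(n : ℤ) - 1) = 3 * a + 5 * -(n : ℤ) - 5 by ring)
      (show -a + 3 * (-(n : ℤ) - 1) = -a + 3 * -(n : ℤ) - 3 by ring)]
    exact this

theorem eq_La {P : Set Pl} (hP : Tiling P)
    (hno : ∀ q ∈ P, act q.1 q.2 ((0 : Fin 4), ((1 : ℤ), (3 : ℤ))) ∉ P)
    (h0 : ((0 : Fin 4), ((0 : ℤ), (0 : ℤ))) ∈ P) : P = La := by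
  refine eq_of_sub hP La_tiling ?_
  rintro ⟨g, ⟨x, y⟩⟩ ⟨hg, h⟩
  simp only [ww] at hg h
  subst hg
  obtain ⟨b, hb⟩ : ∃ b : ℤ, x + 3 * y = 14 * b := ⟨(x + 3 * y) / 14, by omega⟩
  have := lat_all hP hno h0 (-(y - 3 * b)) b
  rw [pl_eq (show x = 3 * (-(y - 3 * b)) + 5 * b by linarith)
    (show y = -(-(y - 3 * b)) + 3 * b by ring)]
  exact this

theorem image_seen (P : Set Pl) (q : Pl) : act q.1 q.2 '' seen P q = P := by
  ext r
  constructor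
  · rintro ⟨s, hs, rfl⟩
    exact hs
  · intro hr
    obtain ⟨s, rfl⟩ := act_surj q.1 q.2 r
    exact ⟨s, hr, rfl⟩

/-- classification of the exact covers -/
theorem classify {P : Set Pl} (hP : Tiling P) :
    ∃ q : Pl, P = act q.1 q.2 '' W ∨ P = act q.1 q.2 '' La := by
  by_cases hM : ∃ q ∈ P, act q.1 q.2 ((0 : Fin 4), ((1 : ℤ), (3 : ℤ))) ∈ P
  · obtain ⟨q, hq, h⟩ := hM
    refine ⟨q, Or.inl ?_⟩
    rw [← eq_W (seen_tiling hP q) (zero_seen hq) h, image_seen]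
  · obtain ⟨q, ⟨hq, _⟩, _⟩ := hP (0, 0)
    refine ⟨q, Or.inr ?_⟩
    rw [← eq_La (seen_tiling hP q) ?_ (zero_seen hq), image_seen]
    intro r hr hc
    refine hM ⟨act q.1 q.2 r, hr, ?_⟩
    have e : act (act q.1 q.2 r).1 (act q.1 q.2 r).2 ((0 : Fin 4), ((1 : ℤ), (3 : ℤ))) =
        act q.1 q.2 (act r.1 r.2 ((0 : Fin 4), ((1 : ℤ), (3 : ℤ)))) := by
      obtain ⟨p, hp⟩ : ∃ p : ℤ × ℤ, p = ((1 : ℤ), (3 : ℤ)) := ⟨_, rfl⟩
      rw [← hp]
      show ((0 : Fin 4) + (r.1 + q.1), rt^[(r.1 + q.1).val] p + (rt^[q.1.val] r.2 + q.2)) =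
        ((0 : Fin 4) + r.1 + q.1, rt^[q.1.val] (rt^[r.1.val] p + r.2) + q.2)
      rw [rt_iter_fin, rt_iter_add, zero_add, zero_add, add_assoc]
    rw [e]
    exact hc

theorem countable_tilings : {P : Set Pl | Tiling P}.Countable := by
  refine Set.Countable.mono (s₂ := Set.range (fun q : Pl => act q.1 q.2 '' W) ∪
    Set.range (fun q : Pl => act q.1 q.2 '' La)) ?_
    ((Set.countable_range _).union (Set.countable_range _))
  intro P hP
  obtain ⟨q, h | h⟩ := classify hP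
  · exact Or.inl ⟨q, h.symm⟩
  · exact Or.inr ⟨q, h.symm⟩

end AlefA.H0
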