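import Mathlib

/-!
# Exact covers of the grid by the quarter turns of a 14-omino: definitions
-/

set_option autoImplicit false

namespace AlefA

/-- quarter turn of the grid -/
def rt (p : ℤ × ℤ) : ℤ × ℤ := (-p.2, p.1)

/-- the 14 cells of the polyomino -/
def F0 : List (ℤ × ℤ) :=
  [(-4, -1), (-3, -1), (-3, 0), (-2, 0), (-1, -1), (-1, 0), (0, 0),
   (1, 0), (2, 0), (2, 1), (3, 0), (3, 1), (3, 2), (4, 0)]

/-- the four rotated images of the polyomino -/
def Fg (g : Fin 4) : List (ℤ × ℤ) := F0.map (rt^[g.val])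

/-- placements: type of the image and position -/
abbrev Pl := Fin 4 × (ℤ × ℤ)

/-- exact covers of the grid by images of the polyomino -/
def Tiling (P : Set Pl) : Prop := ∀ c : ℤ × ℤ, ∃! q : Pl, q ∈ P ∧ c - q.2 ∈ Fg q.1

/-- rotations and translations act on placements -/
def act (k : Fin 4) (z : ℤ × ℤ) (q : Pl) : Pl := (q.1 + k, rt^[k.val] q.2 + z)

end AlefA
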