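import Pool.Agent.AlefA.Defs

/-!
# Symmetries of exact covers
-/

set_option autoImplicit false

namespace AlefA.H0

theorem rt_add (p q : ℤ × ℤ) : rt (p + q) = rt p + rt q := by
  ext
  · simp [rt]; ring
  · simp [rt]

theorem rt_iter_add (k : ℕ) (p q : ℤ × ℤ) : rt^[k] (p + q) = rt^[k] p + rt^[k] q := by
  induction k with
  | zero => rfl
  | succ k ih => rw [Function.iterate_succ_apply', Function.iterate_succ_apply',
      Function.iterate_succ_apply', ih, rt_add]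

theorem rt_iter_sub (k : ℕ) (p q : ℤ × ℤ) : rt^[k] (p - q) = rt^[k] p - rt^[k] q := by
  have := rt_iter_add k (p - q) q
  rw [sub_add_cancel] at this
  rw [this, add_sub_cancel_right]

theorem rt_inj : Function.Injective rt := by
  intro p q h
  have h1 := congrArg Prod.fst h
  have h2 := congrArg Prod.snd h
  simp only [rt] at h1 h2
  ext
  · exact h2
  · linarith

theorem rt_iter_fin (g k : Fin 4) (p : ℤ × ℤ) :
    rt^[(g + k).val] p = rt^[k.val] (rt^[g.val] p) := by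
  fin_cases g <;> fin_cases k <;> simp [rt, Function.iterate_succ_apply'] <;> rfl

theorem mem_Fg_act (k g : Fin 4) (c : ℤ × ℤ) : rt^[k.val] c ∈ Fg (g + k) ↔ c ∈ Fg g := by
  unfold Fg
  rw [List.mem_map, List.mem_map]
  constructor
  · rintro ⟨f, hf, h⟩
    refine ⟨f, hf, rt_inj.iterate k.val ?_⟩
    rw [← h, rt_iter_fin]
  · rintro ⟨f, hf, rfl⟩
    exact ⟨f, hf, rt_iter_fin g k f⟩

theorem act_surj (k : Fin 4) (z : ℤ × ℤ) (q : Pl) : ∃ q', act k z q' = q := by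
  refine ⟨(q.1 - k, rt^[(-k).val] (q.2 - z)), ?_⟩
  unfold act
  ext1
  · simp
  · show rt^[k.val] (rt^[(-k).val] (q.2 - z)) + z = q.2
    rw [← rt_iter_fin, neg_add_cancel]
    show q.2 - z + z = q.2
    rw [sub_add_cancel]

theorem act_inj (k : Fin 4) (z : ℤ × ℤ) : Function.Injective (act k z) := by
  intro q q' h
  have h1 := congrArg Prod.fst h
  have h2 := congrArg Prod.snd h
  simp only [act] at h1 h2
  ext1
  · exact add_right_cancel h1
  · exact rt_inj.iterate k.val (add_right_cancel h2)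

theorem act_cover (k : Fin 4) (z c : ℤ × ℤ) (q : Pl) :
    (rt^[k.val] c + z) - (act k z q).2 ∈ Fg (act k z q).1 ↔ c - q.2 ∈ Fg q.1 := by
  have : (rt^[k.val] c + z) - (act k z q).2 = rt^[k.val] (c - q.2) := by
    rw [rt_iter_sub]
    show rt^[k.val] c + z - (rt^[k.val] q.2 + z) = _
    abel
  rw [this]
  exact mem_Fg_act k q.1 (c - q.2)

/-- preimages of exact covers are exact covers -/
theorem _root_.AlefA.Tiling.pre {P : Set Pl} (hP : Tiling P) (k : Fin 4) (z : ℤ × ℤ) :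
    Tiling {q | act k z q ∈ P} := by
  intro c
  obtain ⟨q, ⟨hq, hc⟩, hu⟩ := hP (rt^[k.val] c + z)
  obtain ⟨q', rfl⟩ := act_surj k z q
  refine ⟨q', ⟨hq, (act_cover k z c q').mp hc⟩, ?_⟩
  rintro r ⟨hr, hrc⟩
  exact act_inj k z (hu _ ⟨hr, (act_cover k z c r).mpr hrc⟩)

/-- two tiles of an exact cover with a common cell are equal -/
theorem _root_.AlefA.Tiling.eq_of_common {P : Set Pl} (hP : Tiling P) {q q' : Pl} (hq : q ∈ P) (hq' : q' ∈ P)
    {f f' : ℤ × ℤ} (hf : f ∈ Fg q.1) (hf' : f' ∈ Fg q'.1) (h : q.2 + f = q'.2 + f') : q = q' := by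
  obtain ⟨r, _, hu⟩ := hP (q.2 + f)
  have h1 := hu q ⟨hq, by rwa [add_sub_cancel_left]⟩
  have h2 := hu q' ⟨hq', by rw [h]; rwa [add_sub_cancel_left]⟩
  rw [h1, h2]

theorem Fg_bound (g : Fin 4) (f : ℤ × ℤ) (hf : f ∈ Fg g) :
    -5 ≤ f.1 ∧ f.1 ≤ 5 ∧ -5 ≤ f.2 ∧ f.2 ≤ 5 := by
  revert f
  have : ∀ g : Fin 4, ∀ f ∈ Fg g, -5 ≤ f.1 ∧ f.1 ≤ 5 ∧ -5 ≤ f.2 ∧ f.2 ≤ 5 := by decide
  exact this g

end AlefA.H0
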