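import Pool.Agent.AlefA.Chk
import Pool.Agent.AlefA.Sym

/-!
# The checker for exact covers of the grid
-/

set_option autoImplicit false

namespace AlefA.H0

/-- linear code of a cell -/
def lam (p : ℤ × ℤ) : ℤ := 64 * p.1 + p.2

/-- mask of a placement -/
def mk (q : Pl) : ℕ := bits ((Fg q.1).map fun f => (lam (q.2 + f) + 2780).toNat)

/-- identifier of a placement -/
def idn (q : Pl) : ℕ := 8192 * q.1.val + (lam q.2 + 2780).toNat

/-- the 56 placements covering the cell with code 0, as relative masks -/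
def Kt0 : List (ℕ × ℕ) :=
  (List.finRange 4).flatMap fun g => (Fg g).map fun f =>
    (bits ((Fg g).map fun f' => (lam f' - lam f + 700).toNat), 8192 * g.val + (700 - lam f).toNat)

/-- shifting a table of relative masks -/
def shf (c : ℕ) : List (ℕ × ℕ) → List (ℕ × ℕ)
  | [] => []
  | t :: l => (t.1 <<< c, t.2 + c) :: shf c l

theorem mem_shf (c : ℕ) (l : List (ℕ × ℕ)) (t : ℕ × ℕ) :
    t ∈ shf c l ↔ ∃ s ∈ l, t = (s.1 <<< c, s.2 + c) := by
  induction l with
  | nil => simp [shf]
  | cons a l ih =>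
    rw [shf, List.mem_cons, ih]
    simp

/-- all coordinates at most `n` -/
def bx (n : ℤ) (p : ℤ × ℤ) : Prop := -n ≤ p.1 ∧ p.1 ≤ n ∧ -n ≤ p.2 ∧ p.2 ≤ n

instance (n : ℤ) (p : ℤ × ℤ) : Decidable (bx n p) := by unfold bx; infer_instance

theorem lam_inj {p q : ℤ × ℤ} (hp : bx 31 p) (hq : bx 31 q) (h : lam p = lam q) : p = q := by
  unfold bx at hp hq
  unfold lam at h
  ext
  · omega
  · omega

theorem lam_nonneg {p : ℤ × ℤ} (hp : bx 31 p) : 0 ≤ lam p + 2780 ∧ lam p + 2780 < 8192 := by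
  unfold bx at hp
  unfold lam
  omega

theorem bx_add {g : Fin 4} {p f : ℤ × ℤ} (hp : bx 26 p) (hf : f ∈ Fg g) : bx 31 (p + f) := by
  have := Fg_bound g f hf
  unfold bx at *
  simp only [Prod.fst_add, Prod.snd_add]
  omega

/-- codes of valid cells -/
def vld (c : ℕ) : Prop := ∃ p : ℤ × ℤ, bx 20 p ∧ (c : ℤ) = lam p + 2080

/-- Boolean test for valid codes -/
def vldb (c : ℕ) : Bool :=
  Nat.ble 12 (c / 64) && Nat.ble (c / 64) 52 && (Nat.ble 12 (c % 64) && Nat.ble (c % 64) 52)

theorem vld_of_vldb {c : ℕ} (h : vldb c = true) : vld c := by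
  unfold vldb at h
  simp only [Bool.and_eq_true, Nat.ble_eq] at h
  refine ⟨((c / 64 : ℕ) - 32, (c % 64 : ℕ) - 32), ?_, ?_⟩
  · unfold bx
    simp only
    omega
  · unfold lam
    simp only
    omega

theorem plane_sound {P : Set Pl} (hP : Tiling P) (FP : List Pl) (hFbx : ∀ q ∈ FP, bx 31 q.2)
    (hF : ∀ q ∈ FP, q ∉ P) (cert st : List ℕ) (hc : ∀ c ∈ cert, vldb c = true)
    (hr : run (fun c => shf c Kt0) 700 (FP.map idn) cert st = true)
    (occ : ℕ) (hocc : occ ∈ st) (L : List Pl) (hL : ∀ q ∈ L, q ∈ P ∧ bx 26 q.2)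
    (h : occ = uni (L.map mk)) : False := by
  set Tr : Set ℕ := {m | ∃ q ∈ P, bx 26 q.2 ∧ m = mk q} with hTr
  refine run_sound _ 700 (FP.map idn) Tr vld ?_ ?_ cert st (fun c hcc => vld_of_vldb (hc c hcc)) hr
    occ hocc (L.map mk) ?_ h
  · rintro c ⟨p, hp, hcp⟩
    obtain ⟨q, ⟨hq, hqc⟩, _⟩ := hP p
    set f := p - q.2 with hf
    have hfb := Fg_bound q.1 f hqc
    have hq2 : q.2 = p - f := by rw [hf]; abel
    have hqb : bx 26 q.2 := by
      rw [hq2]
      unfold bx at *
      simp only [Prod.fst_sub, Prod.snd_sub]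
      omega
    have hlam : ∀ x y : ℤ × ℤ, lam (x + y) = lam x + lam y := by
      intro x y; unfold lam; simp only [Prod.fst_add, Prod.snd_add]; ring
    have hlams : ∀ x y : ℤ × ℤ, lam (x - y) = lam x - lam y := by
      intro x y; unfold lam; simp only [Prod.fst_sub, Prod.snd_sub]; ring
    have hmk : mk q = bits ((Fg q.1).map fun f' => (lam f' - lam f + 700).toNat) <<< c := by
      rw [bits_shift, List.map_map]
      unfold mk
      congr 1
      apply List.map_congr_left
      intro f' hf'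
      have hb := lam_nonneg (bx_add hqb hf')
      have hfb' := Fg_bound q.1 f' hf'
      show (lam (q.2 + f') + 2780).toNat = (lam f' - lam f + 700).toNat + c
      have e1 : lam (q.2 + f') = (c : ℤ) - 2080 - lam f + lam f' := by
        rw [hlam, hq2, hlams, hcp]; ring
      have e2 : 0 ≤ lam f' - lam f + 700 := by
        unfold lam; omega
      rw [e1] at hb ⊢
      omega
    have hid : idn q = 8192 * q.1.val + (700 - lam f).toNat + c := by
      unfold idn
      have e1 : lam q.2 = (c : ℤ) - 2080 - lam f := by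
        rw [hq2, hlams, hcp]; ring
      have e2 : 0 ≤ 700 - lam f := by unfold lam; omega
      have hb : bx 31 q.2 := by unfold bx at *; omega
      have hb' := lam_nonneg hb
      rw [e1] at hb' ⊢
      omega
    refine ⟨(mk q, idn q), ?_, ⟨q, hq, hqb, rfl⟩, ?_, ?_⟩
    · rw [mem_shf]
      refine ⟨(bits ((Fg q.1).map fun f' => (lam f' - lam f + 700).toNat),
        8192 * q.1.val + (700 - lam f).toNat), ?_, ?_⟩
      · unfold Kt0
        rw [List.mem_flatMap]
        exact ⟨q.1, List.mem_finRange _, List.mem_map.mpr ⟨f, hqc, rfl⟩⟩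
      · rw [hmk, hid]
    · intro hmem
      obtain ⟨q0, hq0, he⟩ := List.mem_map.mp hmem
      have hb0 := lam_nonneg (hFbx q0 hq0)
      have hb : bx 31 q.2 := by unfold bx at *; omega
      have hb' := lam_nonneg hb
      unfold idn at he
      have e1 : q0.1.val = q.1.val := by omega
      have e2 : lam q0.2 = lam q.2 := by omega
      have : q0 = q := Prod.ext (Fin.ext e1) (lam_inj (hFbx q0 hq0) hb e2)
      exact hF q0 hq0 (this ▸ hq)
    · unfold mk
      rw [testBit_bits, List.mem_map]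
      refine ⟨f, hqc, ?_⟩
      rw [hq2, sub_add_cancel]
      omega
  · rintro m ⟨q, hq, hqb, rfl⟩ m' ⟨q', hq', hqb', rfl⟩ hne
    obtain ⟨i, hi, hi'⟩ := exists_bit hne
    unfold mk at hi hi'
    rw [testBit_bits, List.mem_map] at hi hi'
    obtain ⟨f, hf, hfi⟩ := hi
    obtain ⟨f', hf', hfi'⟩ := hi'
    have b1 := lam_nonneg (bx_add hqb hf)
    have b2 := lam_nonneg (bx_add hqb' hf')
    have : q.2 + f = q'.2 + f' := by
      refine lam_inj (bx_add hqb hf) (bx_add hqb' hf') ?_
      omega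
    rw [hP.eq_of_common hq hq' hf hf' this]
  · intro m hm
    obtain ⟨q, hq, rfl⟩ := List.mem_map.mp hm
    exact ⟨q, (hL q hq).1, (hL q hq).2, rfl⟩

/-- the Boolean check of one refutation -/
def chk (L FP : List Pl) (cert : List ℕ) : Bool :=
  L.all (fun q => decide (bx 26 q.2)) && FP.all (fun q => decide (bx 31 q.2)) &&
    (cert.all vldb && run (fun c => shf c Kt0) 700 (FP.map idn) cert [uni (L.map mk)])

theorem refute {L FP : List Pl} {cert : List ℕ} (h : chk L FP cert = true) {P : Set Pl}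
    (hP : Tiling P) (hL : ∀ q ∈ L, q ∈ P) (hF : ∀ q ∈ FP, q ∉ P) : False := by
  unfold chk at h
  simp only [Bool.and_eq_true, List.all_eq_true, decide_eq_true_eq] at h
  obtain ⟨⟨h1, h2⟩, h3, h4⟩ := h
  exact plane_sound hP FP h2 hF cert _ h3 h4 _ List.mem_cons_self L
    (fun q hq => ⟨hL q hq, h1 q hq⟩) rfl

end AlefA.H0
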