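import Pool.Agent.AlefA.Cls

/-!
# The two exact covers by the 14-omino
-/

set_option autoImplicit false

namespace AlefA.H0

/-- the coordinate transversal to the wall -/
def ss (p : ℤ × ℤ) : ℤ := 3 * p.1 - p.2

/-- the coordinate of the lattice cover -/
def ww (p : ℤ × ℤ) : ℤ := p.1 + 3 * p.2

/-- rows of the cover with a wall -/
def UW (g : Fin 4) (v : ℤ) : Prop :=
  (g = 0 ∧ v = 0) ∨ (g = 2 ∧ v = -7) ∨ (g = 1 ∧ v ≤ -24 ∧ v % 14 = 4) ∨ (g = 3 ∧ 17 ≤ v ∧ v % 14 = 3)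

instance (g : Fin 4) (v : ℤ) : Decidable (UW g v) := by unfold UW; infer_instance

/-- the cover with a wall -/
def W : Set Pl := {q | UW q.1 (ss q.2)}

/-- the lattice cover -/
def La : Set Pl := {q | q.1 = 0 ∧ ww q.2 % 14 = 0}

/-- values of the transversal coordinate on the images -/
def Sg (g : Fin 4) : List ℤ := (Fg g).map ss

/-- candidates -/
def cand : List (Fin 4 × ℤ) := (List.finRange 4).flatMap fun g => (Sg g).map fun a => (g, a)

/-- solutions at a given value -/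
def sol (t : ℤ) : List (Fin 4 × ℤ) := cand.filter fun x => decide (UW x.1 (t - x.2))

theorem mem_sol (t : ℤ) (g : Fin 4) (a : ℤ) : (g, a) ∈ sol t ↔ a ∈ Sg g ∧ UW g (t - a) := by
  unfold sol cand
  rw [List.mem_filter, List.mem_flatMap, decide_eq_true_iff]
  constructor
  · rintro ⟨⟨g', _, h⟩, hu⟩
    obtain ⟨a', ha', he⟩ := List.mem_map.1 h
    have h1 : g' = g := congrArg Prod.fst he
    have h2 : a' = a := congrArg Prod.snd he
    subst h1
    subst h2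
    exact ⟨ha', hu⟩
  · rintro ⟨ha, hu⟩
    exact ⟨⟨g, List.mem_finRange g, List.mem_map.2 ⟨a, ha, rfl⟩⟩, hu⟩

theorem mid : ∀ k : Fin 80, (sol ((k.val : ℤ) - 42)).length = 1 := by decide +kernel

theorem Sg_bound : ∀ g : Fin 4, ∀ a ∈ Sg g, -12 ≤ a ∧ a ≤ 12 := by decide +kernel

theorem Sg3_ex : ∀ r : Fin 14, ∃ a ∈ Sg 3, ((r.val : ℤ) - a) % 14 = 3 := by decide +kernel

theorem Sg3_un : ∀ a ∈ Sg 3, ∀ b ∈ Sg 3, (a - b) % 14 = 0 → a = b := by decide +kernel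

theorem Sg1_ex : ∀ r : Fin 14, ∃ a ∈ Sg 1, ((r.val : ℤ) - a) % 14 = 4 := by decide +kernel

theorem Sg1_un : ∀ a ∈ Sg 1, ∀ b ∈ Sg 1, (a - b) % 14 = 0 → a = b := by decide +kernel

theorem one (t : ℤ) : ∃! x : Fin 4 × ℤ, x.2 ∈ Sg x.1 ∧ UW x.1 (t - x.2) := by
  by_cases hm : -42 ≤ t ∧ t < 38
  · obtain ⟨k, hk⟩ : ∃ k : Fin 80, (k.val : ℤ) - 42 = t := ⟨⟨(t + 42).toNat, by omega⟩, by
      show (((t + 42).toNat : ℕ) : ℤ) - 42 = t
      omega⟩
    have h1 := mid k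
    rw [hk] at h1
    obtain ⟨x, hx⟩ := List.length_eq_one_iff.1 h1
    refine ⟨x, ?_, ?_⟩
    · have h2 : (x.1, x.2) ∈ sol t := by rw [hx]; exact List.mem_singleton.2 rfl
      exact (mem_sol t x.1 x.2).1 h2
    · rintro ⟨g, a⟩ h2
      have h3 := (mem_sol t g a).2 h2
      rw [hx] at h3
      exact List.mem_singleton.1 h3
  · by_cases hp : 38 ≤ t
    · obtain ⟨a, ha, har⟩ := Sg3_ex ⟨(t % 14).toNat, by omega⟩
      have hr : (((t % 14).toNat : ℕ) : ℤ) = t % 14 := by omega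
      simp only [hr] at har
      have hb := Sg_bound 3 a ha
      refine ⟨(3, a), ⟨ha, Or.inr (Or.inr (Or.inr ⟨rfl, by show 17 ≤ t - a; omega, by
        show (t - a) % 14 = 3; omega⟩))⟩, ?_⟩
      rintro ⟨g, b⟩ ⟨hb1, hb2⟩
      have hb3 := Sg_bound g b hb1
      simp only at hb1 hb2 hb3
      rcases hb2 with ⟨_, h⟩ | ⟨_, h⟩ | ⟨_, h, _⟩ | ⟨hg, h, h'⟩
      · omega
      · omega
      · omega
      · subst hg
        rw [Sg3_un a ha b hb1 (by omega)]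
    · obtain ⟨a, ha, har⟩ := Sg1_ex ⟨(t % 14).toNat, by omega⟩
      have hr : (((t % 14).toNat : ℕ) : ℤ) = t % 14 := by omega
      simp only [hr] at har
      have hb := Sg_bound 1 a ha
      refine ⟨(1, a), ⟨ha, Or.inr (Or.inr (Or.inl ⟨rfl, by show t - a ≤ -24; omega, by
        show (t - a) % 14 = 4; omega⟩))⟩, ?_⟩
      rintro ⟨g, b⟩ ⟨hb1, hb2⟩
      have hb3 := Sg_bound g b hb1
      simp only at hb1 hb2 hb3
      rcases hb2 with ⟨_, h⟩ | ⟨_, h⟩ | ⟨hg, h, h'⟩ | ⟨_, h, _⟩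
      · omega
      · omega
      · subst hg
        rw [Sg1_un a ha b hb1 (by omega)]
      · omega

theorem ss_inj : ∀ g : Fin 4, ∀ f ∈ Fg g, ∀ f' ∈ Fg g, ss f = ss f' → f = f' := by decide +kernel

theorem W_tiling : Tiling W := by
  intro c
  obtain ⟨⟨g, a⟩, ⟨ha, hu⟩, huq⟩ := one (ss c)
  obtain ⟨f, hf, hfa⟩ := List.mem_map.1 ha
  have hs : ∀ x y : ℤ × ℤ, ss (x - y) = ss x - ss y := by
    intro x y
    simp only [ss, Prod.fst_sub, Prod.snd_sub]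
    ring
  refine ⟨(g, c - f), ⟨?_, ?_⟩, ?_⟩
  · show UW g (ss (c - f))
    rw [hs, hfa]
    exact hu
  · show c - (c - f) ∈ Fg g
    rw [sub_sub_cancel]
    exact hf
  · rintro ⟨g', z⟩ ⟨hq, hc⟩
    have h1 := huq (g', ss (c - z)) ⟨List.mem_map.2 ⟨_, hc, rfl⟩, by
      show UW g' (ss c - ss (c - z))
      rw [hs, sub_sub_cancel]
      exact hq⟩
    have h2 : g' = g := congrArg Prod.fst h1
    have h3 : ss (c - z) = a := congrArg Prod.snd h1
    subst h2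
    have h4 : c - z = f := ss_inj g' _ hc _ hf (by rw [h3, hfa])
    rw [← h4, sub_sub_cancel]

theorem ww_ex : ∀ r : Fin 14, ∃ f ∈ Fg 0, ((r.val : ℤ) - ww f) % 14 = 0 := by decide +kernel

theorem ww_un : ∀ f ∈ Fg 0, ∀ f' ∈ Fg 0, (ww f - ww f') % 14 = 0 → f = f' := by decide +kernel

theorem La_tiling : Tiling La := by
  intro c
  have hs : ∀ x y : ℤ × ℤ, ww (x - y) = ww x - ww y := by
    intro x y
    simp only [ww, Prod.fst_sub, Prod.snd_sub]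
    ring
  obtain ⟨f, hf, hr⟩ := ww_ex ⟨(ww c % 14).toNat, by omega⟩
  have hr' : (((ww c % 14).toNat : ℕ) : ℤ) = ww c % 14 := by omega
  simp only [hr'] at hr
  refine ⟨(0, c - f), ⟨⟨rfl, ?_⟩, ?_⟩, ?_⟩
  · show ww (c - f) % 14 = 0
    rw [hs]
    omega
  · show c - (c - f) ∈ Fg 0
    rw [sub_sub_cancel]
    exact hf
  · rintro ⟨g', z⟩ ⟨⟨hg, hq⟩, hc⟩
    simp only at hg hq
    subst hg
    have h1 : c - z ∈ Fg 0 := hc
    have h2 := hs c (c - z)
    rw [sub_sub_cancel] at h2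
    have h4 : c - z = f := ww_un _ h1 _ hf (by omega)
    rw [← h4, sub_sub_cancel]

/-- a cover with a placement of the second kind is the cover with a wall -/
theorem eq_W {P : Set Pl} (hP : Tiling P) (h0 : ((0 : Fin 4), ((0 : ℤ), (0 : ℤ))) ∈ P)
    (h1 : ((0 : Fin 4), ((1 : ℤ), (3 : ℤ))) ∈ P) : P = W := by
  refine eq_of_sub hP W_tiling ?_
  rintro ⟨g, ⟨x, y⟩⟩ hq
  rcases hq with ⟨hg, h⟩ | ⟨hg, h⟩ | ⟨hg, h, h'⟩ | ⟨hg, h, h'⟩
  · simp only [ss] at hg h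
    subst hg
    have := (rowM hP h0 h1 x).1
    rw [pl_eq rfl (show y = 3 * x by omega)]
    exact this
  · simp only [ss] at hg h
    subst hg
    have := (rowM2 hP h0 h1 (x + 3)).1
    rw [pl_eq (show x = x + 3 - 3 by omega) (show y = 3 * (x + 3) - 2 by omega)]
    exact this
  · simp only [ss] at hg h h'
    subst hg
    obtain ⟨m, hm⟩ : ∃ m : ℕ, 3 * x - y = -24 - 14 * (m : ℤ) :=
      ⟨((-24 - (3 * x - y)) / 14).toNat, by omega⟩
    have := rows1 hP h0 h1 m (x + 7 + 3 * m)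
    rw [pl_eq (show x = x + 7 + 3 * (m : ℤ) - 7 - 3 * (m : ℤ) by ring)
      (show y = 3 * (x + 7 + 3 * (m : ℤ)) + 3 + 5 * (m : ℤ) by linarith)]
    exact this
  · simp only [ss] at hg h h'
    subst hg
    obtain ⟨m, hm⟩ : ∃ m : ℕ, 3 * x - y = 17 + 14 * (m : ℤ) :=
      ⟨(((3 * x - y) - 17) / 14).toNat, by omega⟩
    have := rows3 hP h0 h1 m (x - 6 - 3 * m)
    rw [pl_eq (show x = x - 6 - 3 * (m : ℤ) + 6 + 3 * (m : ℤ) by ring)
      (show y = 3 * (x - 6 - 3 * (m : ℤ)) + 1 - 5 * (m : ℤ) by linarith)]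
    exact this

end AlefA.H0
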